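import Pool.Agent.W902.C6.Stm

/-!
Project C6: the upper bound and the final statement from the parts.
-/

set_option autoImplicit false

open Pool.Agent.H800R3

namespace Pool.Agent.W902.C6

theorem mk_eq {S S' : Finset Pt} :
    Quotient.mk confSetoid S = Quotient.mk confSetoid S' ↔ SameConf S S' :=
  ⟨fun h => Quotient.exact h, fun h => Quotient.sound h⟩

theorem classes_bound {β : Type} (Q : Set (Finset Pt)) (B : Set β) (hB : B.Finite)
    (R : Finset Pt → β → Prop) (h1 : ∀ S ∈ Q, ∃ b ∈ B, R S b)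
    (h2 : ∀ S ∈ Q, ∀ S' ∈ Q, ∀ b, R S b → R S' b → SameConf S S') :
    (classes Q).Finite ∧ (classes Q).ncard ≤ B.ncard := by
  classical
  have key : ∀ q ∈ classes Q, ∃ b ∈ B, ∃ S ∈ Q, Quotient.mk confSetoid S = q ∧ R S b := by
    rintro q ⟨S, hS, rfl⟩
    obtain ⟨b, hb, hR⟩ := h1 S hS
    exact ⟨b, hb, S, hS, rfl, hR⟩
  by_cases hne : (classes Q).Nonempty
  swap
  · rw [Set.not_nonempty_iff_eq_empty] at hne
    rw [hne]
    exact ⟨Set.finite_empty, by simp⟩
  have : Nonempty β := by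
    obtain ⟨q, hq⟩ := hne
    obtain ⟨b, -⟩ := key q hq
    exact ⟨b⟩
  choose! g hg1 hg2 using key
  have hinj : Set.InjOn g (classes Q) := by
    intro q hq q' hq' he
    obtain ⟨S, hS, rfl, hR⟩ := hg2 q hq
    obtain ⟨S', hS', rfl, hR'⟩ := hg2 q' hq'
    rw [← he] at hR'
    exact mk_eq.2 (h2 S hS S' hS' _ hR hR')
  have hmaps : Set.MapsTo g (classes Q) B := fun q hq => hg1 q hq
  exact ⟨Set.Finite.of_injOn hmaps hinj hB, Set.ncard_le_ncard_of_injOn g hmaps hinj hB⟩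

/-- configurations equivalent to a standard one -/
def Q2 (n : ℕ) : Set (Finset Pt) :=
  {S | S.card = n ∧ ∃ (e : Bool) (A T : Finset ℝ), SameConf S (std e A T)}

/-- configurations with a long line -/
def Q1 (n : ℕ) : Set (Finset Pt) := {S : Finset Pt | S.card = n ∧ ∃ a b : Pt, a ≠ b ∧
    (S.filter (fun x => D a b x ≠ 0)).card ≤ 145}

theorem cls_sub (hnorm : S_norm) (hpar : S_par) (n : ℕ) :
    {S | S ∈ Cls 6 ∧ S.card = n} ⊆ Q1 n ∪ Q2 n := by
  classical
  rintro S ⟨hS, hn⟩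
  rcases structure_six hS with ⟨a, b, hab, h⟩ | ⟨a, b, c, d, p, hab, hcd, h1, h2, h3⟩
  · exact Or.inl ⟨hn, a, b, hab, h⟩
  · by_cases hl : lineSet a b = lineSet c d
    · left
      refine ⟨hn, a, b, hab, ?_⟩
      have hsub : S.filter (fun x => D a b x ≠ 0) ⊆ {p} := by
        intro x hx
        obtain ⟨hx1, hx2⟩ := Finset.mem_filter.1 hx
        rw [Finset.mem_singleton]
        rcases h3 x hx1 with h | h | h
        · exact h
        · exact absurd h hx2
        · exfalso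
          apply hx2
          have : x ∈ lineSet c d := h
          rw [← hl] at this
          exact this
      have := Finset.card_le_card hsub
      rw [Finset.card_singleton] at this
      omega
    · right
      refine ⟨hn, ?_⟩
      by_cases hc : cross a b c d = 0
      · obtain ⟨S', a', b', c', d', p', hs, g1, g2, g3, g4⟩ := hpar S a b c d p hab hcd h1 h2 hl hc h3
        obtain ⟨e, A, T, h⟩ := hnorm S' a' b' c' d' p' g1 g2 g3 g4
        exact ⟨e, A, T, sameConf_trans hs h⟩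
      · exact hnorm S a b c d p h1 h2 hc h3

theorem card_of_same {P Q : Finset Pt} (h : SameConf P Q) : P.card = Q.card := by
  obtain ⟨e, -⟩ := h
  simpa using Fintype.card_congr e

theorem q2_bound (hmap : S_map) (hcode : S_code) (hcnt3 : S_cnt3) (hwei : S_wei)
    (hcard : S_card) (n : ℕ) :
    (classes (Q2 n)).Finite ∧
      ((classes (Q2 n)).ncard : ℝ) ≤ 32 * (7 * (((n : ℝ) + 2) ^ 2 * al ^ (n + 1))) := by
  classical
  have hal : (1 : ℝ) ≤ al := by
    unfold al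
    have := Real.sqrt_nonneg 2
    linarith
  let TT : Set (List Lt × List Lt × List Lt) := ⋃ m ∈ Finset.Icc (n - 5) (n + 1), Triple m
  have hTfin : TT.Finite := Set.Finite.biUnion (Finset.finite_toSet _) (fun m _ => (hcnt3 m).1)
  have hTcard : (TT.ncard : ℝ) ≤ 7 * (((n : ℝ) + 2) ^ 2 * al ^ (n + 1)) := by
    have h1 : TT.ncard ≤ ∑ m ∈ Finset.Icc (n - 5) (n + 1), (Triple m).ncard := by
      have := Finset.set_ncard_biUnion_le (Finset.Icc (n - 5) (n + 1)) (fun m => Triple m)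
      exact this
    have h2 : ((∑ m ∈ Finset.Icc (n - 5) (n + 1), (Triple m).ncard : ℕ) : ℝ) ≤
        ∑ m ∈ Finset.Icc (n - 5) (n + 1), (((n : ℝ) + 2) ^ 2 * al ^ (n + 1)) := by
      push_cast
      apply Finset.sum_le_sum
      intro m hm
      have hm' := (Finset.mem_Icc.1 hm).2
      refine (hcnt3 m).2.2.trans ?_
      have a1 : (m : ℝ) ≤ (n : ℝ) + 1 := by exact_mod_cast hm'
      have a2 : al ^ m ≤ al ^ (n + 1) := pow_le_pow_right₀ hal hm'
      have a3 : ((m : ℝ) + 1) ^ 2 ≤ ((n : ℝ) + 2) ^ 2 := by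
        apply pow_le_pow_left₀ (by positivity)
        linarith
      have a4 : (0 : ℝ) ≤ al ^ m := by positivity
      exact mul_le_mul a3 a2 a4 (by positivity)
    have h3 : ∑ m ∈ Finset.Icc (n - 5) (n + 1), (((n : ℝ) + 2) ^ 2 * al ^ (n + 1)) ≤
        7 * (((n : ℝ) + 2) ^ 2 * al ^ (n + 1)) := by
      rw [Finset.sum_const, nsmul_eq_mul]
      apply mul_le_mul_of_nonneg_right _ (by positivity)
      rw [Nat.card_Icc]
      have : n + 1 + 1 - (n - 5) ≤ 7 := by omega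
      exact_mod_cast this
    calc (TT.ncard : ℝ) ≤ _ := by exact_mod_cast h1
      _ ≤ _ := h2
      _ ≤ _ := h3
  let FF : Set (Bool × Lt × Lt) := Set.univ
  have hb := classes_bound (Q2 n) (FF ×ˢ TT) (Set.finite_univ.prod hTfin)
    (fun S b => ∃ A T : Finset ℝ, SameConf S (std b.1.1 A T) ∧ b.1.2.1 = lett A T 0 ∧
      b.1.2.2 = lett A T 1 ∧ b.2.1 = word A T (Set.Iio 0) ∧ b.2.2.1 = word A T (Set.Ioo 0 1) ∧
      b.2.2.2 = word A T (Set.Ioi 1)) ?_ ?_
  · refine ⟨hb.1, ?_⟩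
    have h1 : (FF ×ˢ TT).ncard = 32 * TT.ncard := by
      rw [Set.ncard_prod]
      have : FF.ncard = 32 := by
        rw [Set.ncard_univ, Nat.card_eq_fintype_card]
        rfl
      rw [this]
    have h2 := hb.2
    rw [h1] at h2
    calc ((classes (Q2 n)).ncard : ℝ) ≤ ((32 * TT.ncard : ℕ) : ℝ) := by exact_mod_cast h2
      _ = 32 * (TT.ncard : ℝ) := by push_cast; ring
      _ ≤ _ := by linarith
  · rintro S ⟨hSn, e, A, T, hs⟩
    obtain ⟨n1, n2, n3, hw⟩ := hwei A T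
    refine ⟨((e, lett A T 0, lett A T 1), (word A T (Set.Iio 0), word A T (Set.Ioo 0 1),
      word A T (Set.Ioi 1))), ⟨Set.mem_univ _, ?_⟩, A, T, hs, rfl, rfl, rfl, rfl, rfl⟩
    have h1 := card_of_same hs
    have h2 := hcard e A T
    have h3 : e.toNat ≤ 1 := Bool.toNat_le e
    have h4 : (if (1 : ℝ) ∈ A ∧ (1 : ℝ) ∈ T then 1 else 0) ≤ 1 := by split_ifs <;> norm_num
    have h5 : ∀ x : Lt, wt x ≤ 2 := by unfold wt; decide
    have h6 := h5 (lett A T 0)
    have h7 := h5 (lett A T 1)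
    apply Set.mem_biUnion (x := weight (word A T (Set.Iio 0)) + weight (word A T (Set.Ioo 0 1)) +
      weight (word A T (Set.Ioi 1)))
    · rw [Finset.mem_coe, Finset.mem_Icc]
      constructor <;> omega
    · exact ⟨n1, n2, n3, rfl⟩
  · rintro S - S' - ⟨⟨e, l0, l1⟩, u, v, w⟩ ⟨A, T, h1, h2, h3, h4, h5, h6⟩
      ⟨A', T', h1', h2', h3', h4', h5', h6'⟩
    simp only at h1 h2 h3 h4 h5 h6 h1' h2' h3' h4' h5' h6'
    have hi := hcode A T A' T' (h4.symm.trans h4') (h2.symm.trans h2') (h5.symm.trans h5')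
      (h3.symm.trans h3') (h6.symm.trans h6')
    exact sameConf_trans h1 (sameConf_trans (hmap e A T A' T' hi) (sameConf_symm h1'))

theorem pow_bound (K E : ℕ) : ∃ C : ℝ, 0 < C ∧ ∀ n : ℕ, (K : ℝ) * ((n : ℝ) + 1) ^ E ≤ C * al ^ n := by
  have hal : (1 : ℝ) < al := by
    unfold al
    have := Real.sqrt_pos.2 (show (0 : ℝ) < 2 by norm_num)
    linarith
  have h1 := tendsto_pow_const_div_const_pow_of_one_lt E hal
  obtain ⟨B, hB⟩ := h1.bddAbove_range
  have hal0 : 0 < al := by linarith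
  refine ⟨(K : ℝ) * (|B| * al) + 1, by positivity, fun n => ?_⟩
  have h2 : ((n + 1 : ℕ) : ℝ) ^ E / al ^ (n + 1) ≤ B := hB ⟨n + 1, rfl⟩
  have h3 : ((n : ℝ) + 1) ^ E ≤ |B| * al ^ (n + 1) := by
    have h4 := (div_le_iff₀ (by positivity)).1 h2
    push_cast at h4
    exact h4.trans (mul_le_mul_of_nonneg_right (le_abs_self B) (by positivity))
  have h5 : (0 : ℝ) ≤ al ^ n := by positivity
  have hK : (0 : ℝ) ≤ (K : ℝ) := by positivity
  calc (K : ℝ) * ((n : ℝ) + 1) ^ E ≤ (K : ℝ) * (|B| * al ^ (n + 1)) :=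
        mul_le_mul_of_nonneg_left h3 hK
    _ = ((K : ℝ) * (|B| * al)) * al ^ n := by rw [pow_succ]; ring
    _ ≤ _ := by nlinarith

theorem classes_mono {Q Q' : Set (Finset Pt)} (h : Q ⊆ Q') : classes Q ⊆ classes Q' :=
  Set.image_mono h

theorem classes_union (Q Q' : Set (Finset Pt)) : classes (Q ∪ Q') = classes Q ∪ classes Q' :=
  Set.image_union _ _ _

theorem main_of (hmap : S_map) (hcode : S_code) (hnorm : S_norm) (hpar : S_par) (hone : S_one)
    (hcnt3 : S_cnt3) (hwei : S_wei) (hcard : S_card) (hlow : S_low) : S_main := by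
  classical
  obtain ⟨K, E, hKE⟩ := hone 145
  obtain ⟨C1, hC1, hpb⟩ := pow_bound K E
  have hal : (1 : ℝ) < al := by
    unfold al
    have := Real.sqrt_pos.2 (show (0 : ℝ) < 2 by norm_num)
    linarith
  have hal0 : 0 < al := by linarith
  have hfin : ∀ n, (classes {S | S ∈ Cls 6 ∧ S.card = n}).Finite := by
    intro n
    have h1 := classes_mono (cls_sub hnorm hpar n)
    rw [classes_union] at h1
    exact ((hKE n).1.union (q2_bound hmap hcode hcnt3 hwei hcard n).1).subset h1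
  refine ⟨hfin, ?_⟩
  refine ⟨1 / (16 * 144 * al ^ 11), C1 + 32 * 7 * (4 * al), by positivity, ?_⟩
  intro n hn
  have hn1 : (1 : ℝ) ≤ (n : ℝ) := by exact_mod_cast (by omega : 1 ≤ n)
  constructor
  · -- lower bound
    obtain ⟨m, rfl⟩ : ∃ m, n = m + 11 := ⟨n - 11, by omega⟩
    obtain ⟨G, hG1, hG2⟩ := hlow m
    have h1 : (Triple m).ncard ≤ numConf 6 (m + 11) := by
      unfold numConf
      refine Set.ncard_le_ncard_of_injOn (fun z => Quotient.mk confSetoid (G z)) ?_ ?_ (hfin _)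
      · intro z hz
        exact ⟨G z, hG1 z hz, rfl⟩
      · intro z hz z' hz' h
        exact hG2 z hz z' hz' (mk_eq.1 h)
    have h2 := (hcnt3 m).2.1
    have h3 : ((Triple m).ncard : ℝ) ≤ (numConf 6 (m + 11) : ℝ) := by exact_mod_cast h1
    have hm : (1 : ℝ) ≤ (m : ℝ) := by exact_mod_cast (by omega : 1 ≤ m)
    have h4 : 1 / (16 * 144 * al ^ 11) * ((m + 11 : ℕ) : ℝ) ^ 2 * al ^ (m + 11) ≤
        (m : ℝ) ^ 2 * al ^ m / 16 := by
      have e1 : 1 / (16 * 144 * al ^ 11) * ((m + 11 : ℕ) : ℝ) ^ 2 * al ^ (m + 11) =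
          (((m : ℝ) + 11) ^ 2 / 144) * al ^ m / 16 := by
        rw [pow_add]
        push_cast
        field_simp
      rw [e1]
      have e2 : ((m : ℝ) + 11) ^ 2 / 144 ≤ (m : ℝ) ^ 2 := by nlinarith
      have e3 : (0 : ℝ) ≤ al ^ m := by positivity
      have := mul_le_mul_of_nonneg_right e2 e3
      linarith
    exact h4.trans (h2.trans h3)
  · -- upper bound
    have h1 := classes_mono (cls_sub hnorm hpar n)
    rw [classes_union] at h1
    obtain ⟨hf2, hb2⟩ := q2_bound hmap hcode hcnt3 hwei hcard n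
    obtain ⟨hf1, hb1⟩ := hKE n
    have h2 : numConf 6 n ≤ (classes (Q1 n)).ncard + (classes (Q2 n)).ncard :=
      (Set.ncard_le_ncard h1 (hf1.union hf2)).trans (Set.ncard_union_le _ _)
    have h3 : (numConf 6 n : ℝ) ≤ ((classes (Q1 n)).ncard : ℝ) + ((classes (Q2 n)).ncard : ℝ) := by
      exact_mod_cast h2
    have h4 : ((classes (Q1 n)).ncard : ℝ) ≤ C1 * al ^ n := by
      refine le_trans ?_ (hpb n)
      have : ((classes (Q1 n)).ncard : ℝ) ≤ ((K * (n + 1) ^ E : ℕ) : ℝ) := by exact_mod_cast hb1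
      push_cast at this
      exact this
    have h5 : C1 * al ^ n ≤ C1 * (n : ℝ) ^ 2 * al ^ n := by
      have a1 : (1 : ℝ) ≤ (n : ℝ) ^ 2 := by nlinarith
      have a2 : 0 ≤ C1 * al ^ n := by positivity
      nlinarith
    have h6 : 32 * (7 * (((n : ℝ) + 2) ^ 2 * al ^ (n + 1))) ≤
        32 * 7 * (4 * al) * (n : ℝ) ^ 2 * al ^ n := by
      rw [pow_succ al n]
      have hn2 : (2 : ℝ) ≤ (n : ℝ) := by exact_mod_cast (by omega : 2 ≤ n)
      have a1 : ((n : ℝ) + 2) ^ 2 ≤ 4 * (n : ℝ) ^ 2 := by nlinarith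
      have a2 : 0 ≤ al ^ n * al := by positivity
      have := mul_le_mul_of_nonneg_right a1 a2
      linarith
    have h7 : (C1 + 32 * 7 * (4 * al)) * (n : ℝ) ^ 2 * al ^ n =
        C1 * (n : ℝ) ^ 2 * al ^ n + 32 * 7 * (4 * al) * (n : ℝ) ^ 2 * al ^ n := by ring
    show (numConf 6 n : ℝ) ≤ (C1 + 32 * 7 * (4 * al)) * (n : ℝ) ^ 2 * al ^ n
    rw [h7]
    linarith

end Pool.Agent.W902.C6
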