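import Pool.Agent.H800R3.ConfC

/-!
Project C6 (MP_639dfe_co, Q2): the number `c_6(n)` of configurations of `n` points without six
points in general position is of the order `n ^ 2 * (1 + sqrt 2) ^ n`.

Definitions and statements of the parts.
-/

set_option autoImplicit false

open Pool.Agent.H800R3 Filter

namespace Pool.Agent.W902.C6

theorem sameConf_refl (P : Finset Pt) : SameConf P P := ⟨Equiv.refl _, fun _ _ _ => rfl⟩

theorem sameConf_symm {P Q : Finset Pt} (h : SameConf P Q) : SameConf Q P := by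
  obtain ⟨e, he⟩ := h
  refine ⟨e.symm, fun a b c => ?_⟩
  have := he (e.symm a) (e.symm b) (e.symm c)
  simp only [Equiv.apply_symm_apply] at this
  exact this.symm

theorem sameConf_trans {P Q R : Finset Pt} (h : SameConf P Q) (h' : SameConf Q R) :
    SameConf P R := by
  obtain ⟨e, he⟩ := h
  obtain ⟨e', he'⟩ := h'
  exact ⟨e.trans e', fun a b c => (he' _ _ _).trans (he a b c)⟩

/-- Two finite point sets are equivalent if they represent the same configuration. -/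
def confSetoid : Setoid (Finset Pt) :=
  ⟨SameConf, ⟨sameConf_refl, fun h => sameConf_symm h, fun h h' => sameConf_trans h h'⟩⟩

/-- the configurations represented by the members of `Q` -/
def classes (Q : Set (Finset Pt)) : Set (Quotient confSetoid) := Quotient.mk confSetoid '' Q

/-- `c_k(n)`: the number of configurations of size `n` in the class `C_k`. -/
noncomputable def numConf (k n : ℕ) : ℕ := (classes {S | S ∈ Cls k ∧ S.card = n}).ncard

/-- letters: a position can carry a point of the first line, of the second line, or both -/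
abbrev Lt := Bool × Bool

/-- number of points at a position -/
def wt (x : Lt) : ℕ := x.1.toNat + x.2.toNat

/-- total weight of a word -/
def weight (l : List Lt) : ℕ := (l.map wt).sum

/-- all letters are different from `(false, false)` -/
def NZ (l : List Lt) : Prop := ∀ x ∈ l, x ≠ (false, false)

open Classical in
/-- the letter at position `x` (the position of `(s, 1)` is `s`, the position of `(1, t)` is
`t⁻¹`; note that `(1, 0)` has position `0⁻¹ = 0`) -/
noncomputable def lett (A T : Finset ℝ) (x : ℝ) : Lt := (decide (x ∈ A), decide (x⁻¹ ∈ T))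

open Classical in
/-- all positions -/
noncomputable def posns (A T : Finset ℝ) : Finset ℝ := A ∪ T.image (fun t => t⁻¹)

open Classical in
/-- the word read off the positions in `I` from left to right -/
noncomputable def word (A T : Finset ℝ) (I : Set ℝ) : List Lt :=
  (((posns A T).filter (fun x => x ∈ I)).sort (· ≤ ·)).map (lett A T)

open Classical in
/-- the standard configuration: points `(s, 1)` for `s ∈ A`, points `(1, t)` for `t ∈ T`, and the
origin if `e = true`. -/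
noncomputable def std (e : Bool) (A T : Finset ℝ) : Finset Pt :=
  (if e = true then {((0 : ℝ), (0 : ℝ))} else ∅) ∪
    (A.image (fun s => (s, (1 : ℝ))) ∪ T.image (fun t => ((1 : ℝ), t)))

/-- order preserving bijections `A → A'`, `T → T'` keeping the signs of `s t - 1`, `s - 1` and
`t - 1` -/
def Iso2 (A T A' T' : Finset ℝ) : Prop :=
  ∃ f h : ℝ → ℝ,
    (∀ s ∈ A, f s ∈ A') ∧ (∀ s' ∈ A', ∃ s ∈ A, f s = s') ∧
    (∀ t ∈ T, h t ∈ T') ∧ (∀ t' ∈ T', ∃ t ∈ T, h t = t') ∧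
    (∀ s ∈ A, ∀ s' ∈ A, s < s' → f s < f s') ∧
    (∀ t ∈ T, ∀ t' ∈ T, t < t' → h t < h t') ∧
    (∀ s ∈ A, ∀ t ∈ T, SignType.sign (f s * h t - 1) = SignType.sign (s * t - 1)) ∧
    (∀ s ∈ A, SignType.sign (f s - 1) = SignType.sign (s - 1)) ∧
    (∀ t ∈ T, SignType.sign (h t - 1) = SignType.sign (t - 1))

/-! ### statements of the parts -/

/-- MAP -/
def S_map : Prop := ∀ (e : Bool) (A T A' T' : Finset ℝ), Iso2 A T A' T' →
  SameConf (std e A T) (std e A' T')

/-- CODE: equal words give `Iso2` -/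
def S_code : Prop := ∀ A T A' T' : Finset ℝ,
  word A T (Set.Iio 0) = word A' T' (Set.Iio 0) →
  lett A T 0 = lett A' T' 0 →
  word A T (Set.Ioo 0 1) = word A' T' (Set.Ioo 0 1) →
  lett A T 1 = lett A' T' 1 →
  word A T (Set.Ioi 1) = word A' T' (Set.Ioi 1) → Iso2 A T A' T'

/-- non-parallel lines -/
def cross (a b c d : Pt) : ℝ := (b.1 - a.1) * (d.2 - c.2) - (b.2 - a.2) * (d.1 - c.1)

/-- NORM: two non-parallel lines and a point off them -/
def S_norm : Prop := ∀ (S : Finset Pt) (a b c d p : Pt), D a b p ≠ 0 → D c d p ≠ 0 →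
  cross a b c d ≠ 0 → (∀ x ∈ S, x = p ∨ D a b x = 0 ∨ D c d x = 0) →
  ∃ (e : Bool) (A T : Finset ℝ), SameConf S (std e A T)

/-- PAR: parallel lines can be made non-parallel -/
def S_par : Prop := ∀ (S : Finset Pt) (a b c d p : Pt), a ≠ b → c ≠ d → D a b p ≠ 0 →
  D c d p ≠ 0 → lineSet a b ≠ lineSet c d → cross a b c d = 0 →
  (∀ x ∈ S, x = p ∨ D a b x = 0 ∨ D c d x = 0) →
  ∃ (S' : Finset Pt) (a' b' c' d' p' : Pt), SameConf S S' ∧ D a' b' p' ≠ 0 ∧ D c' d' p' ≠ 0 ∧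
    cross a' b' c' d' ≠ 0 ∧ (∀ x ∈ S', x = p' ∨ D a' b' x = 0 ∨ D c' d' x = 0)

/-- ONE: polynomially many configurations with a line missing at most `M` points -/
def S_one : Prop := ∀ M : ℕ, ∃ K E : ℕ, ∀ n : ℕ,
  (classes {S : Finset Pt | S.card = n ∧ ∃ a b : Pt, a ≠ b ∧
    (S.filter (fun x => D a b x ≠ 0)).card ≤ M}).Finite ∧
  (classes {S : Finset Pt | S.card = n ∧ ∃ a b : Pt, a ≠ b ∧
    (S.filter (fun x => D a b x ≠ 0)).card ≤ M}).ncard ≤ K * (n + 1) ^ E

/-- the growth rate -/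
noncomputable def al : ℝ := 1 + Real.sqrt 2

/-- CNT: number of words of weight `m` -/
def S_cnt : Prop := ∀ m : ℕ, ∃ W : Finset (List Lt), (∀ l, l ∈ W ↔ NZ l ∧ weight l = m) ∧
  al ^ m / 2 ≤ (W.card : ℝ) ∧ (W.card : ℝ) ≤ al ^ m

/-- triples of words of total weight `m` -/
def Triple (m : ℕ) : Set (List Lt × List Lt × List Lt) :=
  {z | NZ z.1 ∧ NZ z.2.1 ∧ NZ z.2.2 ∧ weight z.1 + weight z.2.1 + weight z.2.2 = m}

/-- CNT3: number of triples of words of total weight `m` -/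
def S_cnt3 : Prop := ∀ m : ℕ, (Triple m).Finite ∧
  (m : ℝ) ^ 2 * al ^ m / 16 ≤ ((Triple m).ncard : ℝ) ∧
  ((Triple m).ncard : ℝ) ≤ ((m : ℝ) + 1) ^ 2 * al ^ m

/-- WEI: weights and cardinalities -/
def S_wei : Prop := ∀ A T : Finset ℝ,
  NZ (word A T (Set.Iio 0)) ∧ NZ (word A T (Set.Ioo 0 1)) ∧ NZ (word A T (Set.Ioi 1)) ∧
  weight (word A T (Set.Iio 0)) + wt (lett A T 0) + weight (word A T (Set.Ioo 0 1)) +
    wt (lett A T 1) + weight (word A T (Set.Ioi 1)) = A.card + T.card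

open Classical in
/-- CARD -/
def S_card : Prop := ∀ (e : Bool) (A T : Finset ℝ),
  (std e A T).card + (if 1 ∈ A ∧ 1 ∈ T then 1 else 0) = e.toNat + A.card + T.card

/-- CLS: standard configurations have no six points in general position -/
def S_cls : Prop := ∀ (e : Bool) (A T : Finset ℝ), std e A T ∈ Cls 6

/-- REAL: all triples of words are realised -/
def S_real : Prop := ∀ u v w : List Lt, NZ u → NZ v → NZ w → ∃ A T : Finset ℝ,
  (0 : ℝ) ∉ A ∧ (0 : ℝ) ∉ T ∧ (1 : ℝ) ∉ A ∧ (1 : ℝ) ∉ T ∧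
  word A T (Set.Iio 0) = u ∧ word A T (Set.Ioo 0 1) = v ∧ word A T (Set.Ioi 1) = w

/-- RIG: an equivalence of two large standard configurations respects the two lines -/
def S_rig : Prop := ∀ A T A' T' : Finset ℝ,
  4 ≤ A.card → 4 ≤ T.card → 4 ≤ A'.card → 4 ≤ T'.card →
  (1 : ℝ) ∉ A → (1 : ℝ) ∉ T → (1 : ℝ) ∉ A' → (1 : ℝ) ∉ T' →
  (∃ s ∈ A, 1 < s) → (∃ s ∈ A, s < 1) →
  SameConf (std true A T) (std true A' T') → Iso2 A T A' T'

/-- the two conditions that fix the position of `0` -/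
def Canon (A T : Finset ℝ) : Prop :=
  (0 : ℝ) ∉ A ∧ (0 : ℝ) ∉ T ∧
  (∃ s₀ ∈ A, s₀ < 0 ∧ (∀ s ∈ A, s₀ ≤ s) ∧ ∀ t ∈ T, t < 0 → 1 ≤ s₀ * t) ∧
  (∃ t₀ ∈ T, 0 < t₀ ∧ (∀ t ∈ T, t ≤ t₀) ∧ ∀ s ∈ A, 0 < s → 1 ≤ s * t₀)

/-- READ: `Iso2` of canonical pairs gives equal words -/
def S_read : Prop := ∀ A T A' T' : Finset ℝ, Canon A T → Canon A' T' → Iso2 A T A' T' →
  word A T (Set.Iio 0) = word A' T' (Set.Iio 0) ∧
  word A T (Set.Ioo 0 1) = word A' T' (Set.Ioo 0 1) ∧
  word A T (Set.Ioi 1) = word A' T' (Set.Ioi 1)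

/-- COUNT LETTERS -/
def S_let : Prop := ∀ (A T : Finset ℝ) (I : Set ℝ) ,
  ((word A T I).countP (fun x => x.1) ≤ A.card) ∧ ((word A T I).countP (fun x => x.2) ≤ T.card)

/-- HEAD: the first letter of a word -/
def S_head : Prop := ∀ (A T : Finset ℝ) (I : Set ℝ) (x : Lt) (l : List Lt),
  word A T I = x :: l → ∃ r ∈ I, r ∈ posns A T ∧ lett A T r = x ∧
    ∀ r' ∈ posns A T, r' ∈ I → r ≤ r'

/-- LOW: lower bound -/
def S_low : Prop := ∀ m : ℕ, ∃ G : List Lt × List Lt × List Lt → Finset Pt,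
  (∀ z ∈ Triple m, G z ∈ Cls 6 ∧ (G z).card = m + 11) ∧
  ∀ z ∈ Triple m, ∀ z' ∈ Triple m, SameConf (G z) (G z') → z = z'

/-- the final statement -/
def S_main : Prop := (∀ n, (classes {S | S ∈ Cls 6 ∧ S.card = n}).Finite) ∧
  ∃ c C : ℝ, 0 < c ∧ ∀ n : ℕ, 12 ≤ n →
    c * (n : ℝ) ^ 2 * (1 + Real.sqrt 2) ^ n ≤ (numConf 6 n : ℝ) ∧
    (numConf 6 n : ℝ) ≤ C * (n : ℝ) ^ 2 * (1 + Real.sqrt 2) ^ n

end Pool.Agent.W902.C6
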