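import Pool.Agent.W902.C6.Stm2
import Pool.Agent.W902.C6.Up

/-!
Project C6, second stage: the exact asymptotics from the parts.
-/

set_option autoImplicit false

open Pool.Agent.H800R3 Filter

namespace Pool.Agent.W902.C6

theorem al_gt_one : (1 : ℝ) < al := by
  unfold al
  have := Real.sqrt_pos.2 (show (0 : ℝ) < 2 by norm_num)
  linarith

theorem al_pos : (0 : ℝ) < al := by linarith [al_gt_one]

theorem al_sq : al ^ 2 = 2 * al + 1 := by
  unfold al
  have := Real.sq_sqrt (show (0 : ℝ) ≤ 2 by norm_num)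
  nlinarith

/-- limits of the normalised numbers of triples -/
theorem tri_limit (hca : S_conva) (hcb : S_convb) (X Y Z : Set (List Lt)) (hX : ∀ l ∈ X, NZ l)
    (hY : ∀ l ∈ Y, NZ l) (hZ : ∀ l ∈ Z, NZ l) (a b c : ℝ)
    (ha : Tendsto (fun i : ℕ => (cntX X i : ℝ) / al ^ i) atTop (nhds a))
    (hb : Tendsto (fun i : ℕ => (cntX Y i : ℝ) / al ^ i) atTop (nhds b))
    (hc : Tendsto (fun i : ℕ => (cntX Z i : ℝ) / al ^ i) atTop (nhds c)) :
    Tendsto (fun m : ℕ => ((tri X Y Z m).ncard : ℝ) / ((m : ℝ) ^ 2 * al ^ m)) atTop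
      (nhds (a * b * c / 2)) := by
  refine (hcb _ _ _ a b c ha hb hc).congr (fun m => ?_)
  have h := (hca X Y Z hX hY hZ m).2
  have hal := al_pos
  have e : ((tri X Y Z m).ncard : ℝ) = (∑ p ∈ Finset.HasAntidiagonal.antidiagonal m,
      (cntX X p.1 : ℝ) / al ^ p.1 * ∑ q ∈ Finset.HasAntidiagonal.antidiagonal p.2,
        (cntX Y q.1 : ℝ) / al ^ q.1 * ((cntX Z q.2 : ℝ) / al ^ q.2)) * al ^ m := by
    rw [h]
    push_cast
    rw [Finset.sum_mul]
    apply Finset.sum_congr rfl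
    intro p hp
    rw [mul_assoc, Finset.sum_mul, Finset.mul_sum, Finset.mul_sum]
    apply Finset.sum_congr rfl
    intro q hq
    have h1 : p.1 + p.2 = m := Finset.HasAntidiagonal.mem_antidiagonal.1 hp
    have h2 : q.1 + q.2 = p.2 := Finset.HasAntidiagonal.mem_antidiagonal.1 hq
    rw [← h1, ← h2, pow_add, pow_add]
    field_simp
  rw [e]
  have : al ^ m ≠ 0 := (pow_pos hal m).ne'
  rw [mul_comm ((m : ℝ) ^ 2) (al ^ m), ← div_div, mul_div_assoc, div_self this, mul_one]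

/-- shifted limits -/
theorem shift_limit (F : ℕ → ℝ) (L : ℝ) (k : ℕ)
    (h : Tendsto (fun m : ℕ => F m / ((m : ℝ) ^ 2 * al ^ m)) atTop (nhds L)) :
    Tendsto (fun n : ℕ => F (n + 1 - k) / ((n : ℝ) ^ 2 * al ^ n)) atTop
      (nhds (L * (al / al ^ k))) := by
  have hal := al_pos
  have hg : Tendsto (fun n : ℕ => n + 1 - k) atTop atTop := by
    apply tendsto_atTop.2
    intro b
    filter_upwards [eventually_ge_atTop (b + k)] with n hn
    omega
  have h1 := h.comp hg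
  have h2 : Tendsto (fun n : ℕ => (((n + 1 - k : ℕ) : ℝ) / (n : ℝ)) ^ 2) atTop (nhds 1) := by
    have h3 : Tendsto (fun n : ℕ => (1 : ℝ) + (1 - (k : ℝ)) / (n : ℝ)) atTop (nhds (1 + 0)) :=
      tendsto_const_nhds.add (tendsto_const_div_atTop_nhds_zero_nat _)
    have h4 : Tendsto (fun n : ℕ => ((n + 1 - k : ℕ) : ℝ) / (n : ℝ)) atTop (nhds 1) := by
      rw [add_zero] at h3
      apply h3.congr'
      filter_upwards [eventually_ge_atTop (k + 1)] with n hn
      have hn0 : (n : ℝ) ≠ 0 := by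
        have : 0 < n := by omega
        exact_mod_cast this.ne'
      rw [Nat.cast_sub (by omega)]
      push_cast
      field_simp
      ring
    have := h4.pow 2
    rwa [one_pow] at this
  have h5 : Tendsto (fun n : ℕ => al ^ (n + 1 - k) / al ^ n) atTop (nhds (al / al ^ k)) := by
    apply tendsto_const_nhds.congr'
    filter_upwards [eventually_ge_atTop k] with n hn
    obtain ⟨j, rfl⟩ := Nat.exists_eq_add_of_le hn
    have : k + j + 1 - k = j + 1 := by omega
    rw [this, pow_succ, pow_add]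
    field_simp
  have h6 := (h1.mul h2).mul h5
  rw [mul_one] at h6
  apply h6.congr'
  filter_upwards [eventually_ge_atTop (k + 1)] with n hn
  have hn0 : (n : ℝ) ≠ 0 := by
    have : 0 < n := by omega
    exact_mod_cast this.ne'
  have hg0 : ((n + 1 - k : ℕ) : ℝ) ≠ 0 := by
    have : 0 < n + 1 - k := by omega
    exact_mod_cast this.ne'
  have ha1 : al ^ (n + 1 - k) ≠ 0 := (pow_pos hal _).ne'
  have ha2 : al ^ n ≠ 0 := (pow_pos hal _).ne'
  simp only [Function.comp]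
  field_simp

/-- polynomials are negligible -/
theorem poly_limit (K E : ℕ) :
    Tendsto (fun n : ℕ => ((K * (n + 1) ^ E : ℕ) : ℝ) / ((n : ℝ) ^ 2 * al ^ n)) atTop
      (nhds 0) := by
  have hal := al_gt_one
  have h1 := tendsto_pow_const_div_const_pow_of_one_lt E hal
  have h2 : Tendsto (fun n : ℕ => ((n + 1 : ℕ) : ℝ) ^ E / al ^ (n + 1)) atTop (nhds 0) :=
    h1.comp (tendsto_add_atTop_nat 1)
  have h3 := h2.const_mul ((K : ℝ) * al)
  rw [mul_zero] at h3
  apply squeeze_zero' _ _ h3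
  · exact Eventually.of_forall (fun n => by have := al_pos; positivity)
  · filter_upwards [eventually_ge_atTop 1] with n hn
    have hn1 : (1 : ℝ) ≤ (n : ℝ) := by exact_mod_cast hn
    have hp := al_pos
    have e1 : (K : ℝ) * al * (((n + 1 : ℕ) : ℝ) ^ E / al ^ (n + 1)) =
        (K : ℝ) * ((n + 1 : ℕ) : ℝ) ^ E / al ^ n := by
      rw [pow_succ]
      field_simp
    rw [e1]
    push_cast
    have h4 : (0 : ℝ) < al ^ n := by positivity
    apply div_le_div_of_nonneg_left (by positivity) h4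
    have h5 : (1 : ℝ) ≤ (n : ℝ) ^ 2 := by nlinarith
    exact le_mul_of_one_le_left h4.le h5

/-! ### the pieces of the upper bound -/

/-- two lines only -/
def QF (n : ℕ) : Set (Finset Pt) :=
  {S : Finset Pt | S.card = n ∧ ∃ A T : Finset ℝ, SameConf S (std false A T)}

/-- canonical ones -/
def QK (n : ℕ) : Set (Finset Pt) :=
  {S : Finset Pt | S.card = n ∧ ∃ A T : Finset ℝ, Canon A T ∧ ((1 : ℝ) ∈ A ↔ (1 : ℝ) ∈ T) ∧
    (∃ t ∈ T, 1 < t) ∧ SameConf S (std true A T)}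

/-- exceptional ones -/
def QE (n : ℕ) : Set (Finset Pt) :=
  {S : Finset Pt | S.card = n ∧ ∃ A T : Finset ℝ, SameConf S (std true A T) ∧
    ((¬ ∃ t ∈ T, 1 < t) ∨ ¬ ∃ s ∈ A, s < 0)}

theorem std_insert_one (e : Bool) (A T : Finset ℝ) (h : (1 : ℝ) ∈ A ∨ (1 : ℝ) ∈ T) :
    std e A T = std e (insert 1 A) (insert 1 T) := by
  classical
  unfold std
  congr 1
  rw [Finset.image_insert, Finset.image_insert]
  ext q
  simp only [Finset.mem_union, Finset.mem_insert, Finset.mem_image]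
  constructor
  · rintro (h1 | h1)
    · exact Or.inl (Or.inr h1)
    · exact Or.inr (Or.inr h1)
  · rintro ((rfl | h1) | (rfl | h1))
    · rcases h with h | h
      · exact Or.inl ⟨1, h, rfl⟩
      · exact Or.inr ⟨1, h, rfl⟩
    · exact Or.inl h1
    · rcases h with h | h
      · exact Or.inl ⟨1, h, rfl⟩
      · exact Or.inr ⟨1, h, rfl⟩
    · exact Or.inr h1

theorem q2_sub (hmap : S_map) (hcano : S_cano) (n : ℕ) : Q2 n ⊆ QF n ∪ (QK n ∪ QE n) := by
  classical
  rintro S ⟨hn, e, A, T, hs⟩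
  cases e with
  | false => exact Or.inl ⟨hn, A, T, hs⟩
  | true =>
    right
    obtain ⟨A1, T1, hc1, hs1⟩ : ∃ A1 T1 : Finset ℝ, ((1 : ℝ) ∈ A1 ↔ (1 : ℝ) ∈ T1) ∧
        SameConf S (std true A1 T1) := by
      by_cases h : (1 : ℝ) ∈ A ∨ (1 : ℝ) ∈ T
      · refine ⟨insert 1 A, insert 1 T, by simp, ?_⟩
        rwa [← std_insert_one true A T h]
      · push Not at h
        exact ⟨A, T, ⟨fun h' => absurd h' h.1, fun h' => absurd h' h.2⟩, hs⟩
    by_cases h1 : ∃ t ∈ T1, 1 < t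
    · by_cases h2 : ∃ s ∈ A1, s < 0
      · left
        obtain ⟨A', T', g1, g2, g3, g4⟩ := hcano A1 T1 hc1 h1 h2
        exact ⟨hn, A', T', g1, g2, g3, sameConf_trans hs1 (hmap true A1 T1 A' T' g4)⟩
      · exact Or.inr ⟨hn, A1, T1, hs1, Or.inr h2⟩
    · exact Or.inr ⟨hn, A1, T1, hs1, Or.inl h1⟩

theorem nz_WS : ∀ l ∈ WS, NZ l := fun _ h => h
theorem nz_XU : ∀ l ∈ XU, NZ l := fun _ h => h.1
theorem nz_XV : ∀ l ∈ XV, NZ l := fun _ h => h.1
theorem nz_XU4 : ∀ l ∈ XU4, NZ l := fun _ h => h.1.1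
theorem nz_XP1 : ∀ l ∈ XP1, NZ l := fun _ h => h.1
theorem nz_XA0 : ∀ l ∈ XA0, NZ l := fun _ h => h.1
theorem nz_XB0 : ∀ l ∈ XB0, NZ l := fun _ h => h.1

/-- a pair of a bit and a triple -/
def BT (X Y Z : Set (List Lt)) (n : ℕ) : Set (Bool × (List Lt × List Lt × List Lt)) :=
  (fun z => (false, z)) '' tri X Y Z (n - 1) ∪ (fun z => (true, z)) '' tri X Y Z (n - 2)

theorem BT_card (hca : S_conva) (X Y Z : Set (List Lt)) (hX : ∀ l ∈ X, NZ l)
    (hY : ∀ l ∈ Y, NZ l) (hZ : ∀ l ∈ Z, NZ l) (n : ℕ) : (BT X Y Z n).Finite ∧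
    (BT X Y Z n).ncard = (tri X Y Z (n - 1)).ncard + (tri X Y Z (n - 2)).ncard := by
  have f1 := (hca X Y Z hX hY hZ (n - 1)).1
  have f2 := (hca X Y Z hX hY hZ (n - 2)).1
  have i1 : Function.Injective (fun z : List Lt × List Lt × List Lt => (false, z)) :=
    fun a b h => (Prod.ext_iff.1 h).2
  have i2 : Function.Injective (fun z : List Lt × List Lt × List Lt => (true, z)) :=
    fun a b h => (Prod.ext_iff.1 h).2
  refine ⟨(f1.image _).union (f2.image _), ?_⟩
  unfold BT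
  rw [Set.ncard_union_eq _ (f1.image _) (f2.image _), Set.ncard_image_of_injective _ i1,
    Set.ncard_image_of_injective _ i2]
  rw [Set.disjoint_left]
  rintro _ ⟨z, -, rfl⟩ ⟨z', -, h⟩
  exact absurd (Prod.ext_iff.1 h).1 (by simp)

theorem wt_one {A T : Finset ℝ} (h : (1 : ℝ) ∈ A ↔ (1 : ℝ) ∈ T) :
    wt (lett A T 1) = 2 * (if (1 : ℝ) ∈ A ∧ (1 : ℝ) ∈ T then 1 else 0) := by
  classical
  by_cases hA : (1 : ℝ) ∈ A
  · have hT := h.1 hA
    have : lett A T 1 = (true, true) := by simp [lett, hA, hT]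
    rw [this, if_pos ⟨hA, hT⟩]; rfl
  · have hT : (1 : ℝ) ∉ T := fun h' => hA (h.2 h')
    have : lett A T 1 = (false, false) := by simp [lett, hA, hT]
    rw [this, if_neg (fun h' => hA h'.1)]; rfl

theorem lett_zero_canon {A T : Finset ℝ} (h : Canon A T) : lett A T 0 = (false, false) := by
  simp [lett, h.1, h.2.1]

theorem qk_bound (hmap : S_map) (hcode : S_code) (hwei : S_wei) (hcard : S_card) (hca : S_conva)
    (hcw : S_cw) (n : ℕ) (hn : 2 ≤ n) :
    (classes (QK n)).Finite ∧ (classes (QK n)).ncard ≤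
      (tri XU XV WS (n - 1)).ncard + (tri XU XV WS (n - 2)).ncard := by
  classical
  obtain ⟨hf, hcd⟩ := BT_card hca XU XV WS nz_XU nz_XV nz_WS n
  rw [← hcd]
  apply classes_bound (QK n) (BT XU XV WS n) hf
    (fun S b => ∃ A T : Finset ℝ, Canon A T ∧ ((1 : ℝ) ∈ A ↔ (1 : ℝ) ∈ T) ∧
      SameConf S (std true A T) ∧ ((1 : ℝ) ∈ A ↔ b.1 = true) ∧ b.2.1 = word A T (Set.Iio 0) ∧
      b.2.2.1 = word A T (Set.Ioo 0 1) ∧ b.2.2.2 = word A T (Set.Ioi 1))
  · rintro S ⟨hSn, A, T, hc, h1, ht, hs⟩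
    obtain ⟨w1, w2, w3⟩ := hcw A T hc ht
    obtain ⟨-, -, -, hw⟩ := hwei A T
    rw [lett_zero_canon hc, wt_one h1] at hw
    have e0 : wt (false, false) = 0 := rfl
    rw [e0] at hw
    have h2 := card_of_same hs
    have h3 := hcard true A T
    have h4 : (true).toNat = 1 := rfl
    rw [h4] at h3
    refine ⟨(decide ((1 : ℝ) ∈ A), (word A T (Set.Iio 0), word A T (Set.Ioo 0 1),
      word A T (Set.Ioi 1))), ?_, A, T, hc, h1, hs, by simp, rfl, rfl, rfl⟩
    by_cases hA : (1 : ℝ) ∈ A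
    · have hT := h1.1 hA
      rw [if_pos ⟨hA, hT⟩] at hw h3
      right
      refine ⟨(word A T (Set.Iio 0), word A T (Set.Ioo 0 1), word A T (Set.Ioi 1)),
        ⟨w1, w2, w3, ?_⟩, ?_⟩
      · show weight (word A T (Set.Iio 0)) + weight (word A T (Set.Ioo 0 1)) +
          weight (word A T (Set.Ioi 1)) = n - 2
        omega
      · simp [hA]
    · have hT : (1 : ℝ) ∉ T := fun h' => hA (h1.2 h')
      rw [if_neg (fun h' => hA h'.1)] at hw h3
      left
      refine ⟨(word A T (Set.Iio 0), word A T (Set.Ioo 0 1), word A T (Set.Ioi 1)),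
        ⟨w1, w2, w3, ?_⟩, ?_⟩
      · show weight (word A T (Set.Iio 0)) + weight (word A T (Set.Ioo 0 1)) +
          weight (word A T (Set.Ioi 1)) = n - 1
        omega
      · simp [hA]
  · rintro S - S' - ⟨o, u, v, w⟩ ⟨A, T, c1, d1, h1, h2, h4, h5, h6⟩
      ⟨A', T', c1', d1', h1', h2', h4', h5', h6'⟩
    simp only at h1 h2 h4 h5 h6 h1' h2' h4' h5' h6'
    have e1 : lett A T 1 = lett A' T' 1 := by
      have a1 : (1 : ℝ) ∈ A ↔ (1 : ℝ) ∈ A' := h2.trans h2'.symm
      have a2 : (1 : ℝ) ∈ T ↔ (1 : ℝ) ∈ T' := d1.symm.trans (a1.trans d1')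
      simp only [lett, inv_one, a1, a2]
    have hi := hcode A T A' T' (h4.symm.trans h4')
      ((lett_zero_canon c1).trans (lett_zero_canon c1').symm) (h5.symm.trans h5')
      e1 (h6.symm.trans h6')
    exact sameConf_trans h1 (sameConf_trans (hmap true A T A' T' hi) (sameConf_symm h1'))

/-- exceptional triples -/
def ET (m : ℕ) : Set (List Lt × List Lt × List Lt) := tri WS XB0 WS m ∪ tri XA0 WS WS m

theorem qe_bound (hmap : S_map) (hcode : S_code) (hwei : S_wei) (hcard : S_card) (hca : S_conva)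
    (hmem : S_mem) (n : ℕ) (hn : 6 ≤ n) :
    (classes (QE n)).Finite ∧ (classes (QE n)).ncard ≤
      ∑ k ∈ Finset.range 7, 16 * ((tri WS XB0 WS (n + 1 - k)).ncard +
        (tri XA0 WS WS (n + 1 - k)).ncard) := by
  classical
  let TT : Set (List Lt × List Lt × List Lt) := ⋃ k ∈ Finset.range 7, ET (n + 1 - k)
  have hEfin : ∀ m, (ET m).Finite := fun m =>
    (hca WS XB0 WS nz_WS nz_XB0 nz_WS m).1.union (hca XA0 WS WS nz_XA0 nz_WS nz_WS m).1
  have hTfin : TT.Finite := Set.Finite.biUnion (Finset.finite_toSet _) (fun k _ => hEfin _)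
  have hTcard : TT.ncard ≤ ∑ k ∈ Finset.range 7, ((tri WS XB0 WS (n + 1 - k)).ncard +
        (tri XA0 WS WS (n + 1 - k)).ncard) := by
    have h1 := Finset.set_ncard_biUnion_le (Finset.range 7) (fun k => ET (n + 1 - k))
    refine h1.trans (Finset.sum_le_sum (fun k _ => Set.ncard_union_le _ _))
  let FF : Set (Lt × Lt) := Set.univ
  have hb := classes_bound (QE n) (FF ×ˢ TT) (Set.finite_univ.prod hTfin)
    (fun S b => ∃ A T : Finset ℝ, SameConf S (std true A T) ∧ b.1.1 = lett A T 0 ∧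
      b.1.2 = lett A T 1 ∧ b.2.1 = word A T (Set.Iio 0) ∧ b.2.2.1 = word A T (Set.Ioo 0 1) ∧
      b.2.2.2 = word A T (Set.Ioi 1)) ?_ ?_
  · refine ⟨hb.1, hb.2.trans ?_⟩
    have h1 : (FF ×ˢ TT).ncard = 16 * TT.ncard := by
      rw [Set.ncard_prod]
      have : FF.ncard = 16 := by
        rw [Set.ncard_univ, Nat.card_eq_fintype_card]
        rfl
      rw [this]
    rw [h1, ← Finset.mul_sum]
    exact Nat.mul_le_mul_left _ hTcard
  · rintro S ⟨hSn, A, T, hs, hex⟩
    obtain ⟨n1, n2, n3, hw⟩ := hwei A T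
    refine ⟨((lett A T 0, lett A T 1), (word A T (Set.Iio 0), word A T (Set.Ioo 0 1),
      word A T (Set.Ioi 1))), ⟨Set.mem_univ _, ?_⟩, A, T, hs, rfl, rfl, rfl, rfl, rfl⟩
    have h1 := card_of_same hs
    have h2 := hcard true A T
    have h3 : (true).toNat = 1 := rfl
    rw [h3] at h2
    have h4 : (if (1 : ℝ) ∈ A ∧ (1 : ℝ) ∈ T then 1 else 0) ≤ 1 := by split_ifs <;> norm_num
    have h5 : ∀ x : Lt, wt x ≤ 2 := by unfold wt; decide
    have h6 := h5 (lett A T 0)
    have h7 := h5 (lett A T 1)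
    obtain ⟨M, hM⟩ : ∃ M, M = weight (word A T (Set.Iio 0)) + weight (word A T (Set.Ioo 0 1)) +
      weight (word A T (Set.Ioi 1)) := ⟨_, rfl⟩
    have hMb : n - 5 ≤ M ∧ M ≤ n + 1 := by constructor <;> omega
    apply Set.mem_biUnion (x := n + 1 - M)
    · rw [Finset.mem_coe, Finset.mem_range]
      omega
    · have e : n + 1 - (n + 1 - M) = M := by omega
      rw [e]
      rcases hex with hex | hex
      · left
        refine ⟨n1, ⟨n2, ?_⟩, n3, hM.symm⟩
        intro x hx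
        obtain ⟨r, hr, -, hl⟩ := hmem A T _ _ hx
        by_contra hcon
        rw [Bool.not_eq_false] at hcon
        rw [← hl] at hcon
        have hrT : r⁻¹ ∈ T := by simpa [lett] using hcon
        apply hex
        refine ⟨r⁻¹, hrT, ?_⟩
        rw [← inv_one]
        exact (inv_lt_inv₀ one_pos hr.1).2 hr.2
      · right
        refine ⟨⟨n1, ?_⟩, n2, n3, hM.symm⟩
        intro x hx
        obtain ⟨r, hr, -, hl⟩ := hmem A T _ _ hx
        by_contra hcon
        rw [Bool.not_eq_false] at hcon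
        rw [← hl] at hcon
        have hrA : r ∈ A := by simpa [lett] using hcon
        exact hex ⟨r, hrA, hr⟩
  · rintro S - S' - ⟨⟨l0, l1⟩, u, v, w⟩ ⟨A, T, h1, h2, h3, h4, h5, h6⟩
      ⟨A', T', h1', h2', h3', h4', h5', h6'⟩
    simp only at h1 h2 h3 h4 h5 h6 h1' h2' h3' h4' h5' h6'
    have hi := hcode A T A' T' (h4.symm.trans h4') (h2.symm.trans h2') (h5.symm.trans h5')
      (h3.symm.trans h3') (h6.symm.trans h6')
    exact sameConf_trans h1 (sameConf_trans (hmap true A T A' T' hi) (sameConf_symm h1'))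

/-! ### lower bound -/

theorem lower_bound (hcls : S_cls) (hread : S_read) (hrig : S_rig2) (hlow : S_low2)
    (hca : S_conva) (hfin : ∀ n, (classes {S | S ∈ Cls 6 ∧ S.card = n}).Finite)
    (n : ℕ) (hn : 2 ≤ n) :
    (tri XU4 XV XP1 (n - 1)).ncard + (tri XU4 XV XP1 (n - 2)).ncard ≤ numConf 6 n := by
  classical
  obtain ⟨hf, hcd⟩ := BT_card hca XU4 XV XP1 nz_XU4 nz_XV nz_XP1 n
  rw [← hcd]
  choose G hG using hlow
  let H : Bool × (List Lt × List Lt × List Lt) → Finset ℝ × Finset ℝ :=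
    fun b => G b.1 (if b.1 = true then n - 2 else n - 1) b.2
  have hH : ∀ b ∈ BT XU4 XV XP1 n, Canon (H b).1 (H b).2 ∧ ((1 : ℝ) ∈ (H b).1 ↔ b.1 = true) ∧
      ((1 : ℝ) ∈ (H b).2 ↔ b.1 = true) ∧ 4 ≤ (H b).1.card ∧ 4 ≤ (H b).2.card ∧
      (∃ s ∈ (H b).1, 1 < s) ∧ (∃ s ∈ (H b).1, s < 1) ∧
      (std true (H b).1 (H b).2).card = n ∧
      word (H b).1 (H b).2 (Set.Iio 0) = b.2.1 ∧ word (H b).1 (H b).2 (Set.Ioo 0 1) = b.2.2.1 ∧
      word (H b).1 (H b).2 (Set.Ioi 1) = b.2.2.2 := by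
    rintro b (⟨z, hz, rfl⟩ | ⟨z, hz, rfl⟩)
    · obtain ⟨g1, g2, g3, g4, g5, g6, g7, g8, g9⟩ := hG false (n - 1) z hz
      refine ⟨g1, g2, g3, g4, g5, g6, g7, ?_, g9⟩
      refine g8.trans ?_
      show n - 1 + 1 + 0 = n
      omega
    · obtain ⟨g1, g2, g3, g4, g5, g6, g7, g8, g9⟩ := hG true (n - 2) z hz
      refine ⟨g1, g2, g3, g4, g5, g6, g7, ?_, g9⟩
      refine g8.trans ?_
      show n - 2 + 1 + 1 = n
      omega
  unfold numConf
  refine Set.ncard_le_ncard_of_injOn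
    (fun b => Quotient.mk confSetoid (std true (H b).1 (H b).2)) ?_ ?_ (hfin _)
  · intro b hb
    exact ⟨_, ⟨hcls _ _ _, (hH b hb).2.2.2.2.2.2.2.1⟩, rfl⟩
  · intro b hb b' hb' h
    have hs := mk_eq.1 h
    obtain ⟨c1, o1, o2, k1, k2, x1, x2, -, w1, w2, w3⟩ := hH b hb
    obtain ⟨c1', o1', o2', k1', k2', x1', x2', -, w1', w2', w3'⟩ := hH b' hb'
    have hi := hrig _ _ _ _ k1 k2 k1' k2' (o1.trans o2.symm) (o1'.trans o2'.symm) x1 x2 hs
    obtain ⟨r1, r2, r3⟩ := hread _ _ _ _ c1 c1' hi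
    have e1 : b.2 = b'.2 := Prod.ext (w1.symm.trans (r1.trans w1'))
      (Prod.ext (w2.symm.trans (r2.trans w2')) (w3.symm.trans (r3.trans w3')))
    have e2 : b.1 = true ↔ b'.1 = true := by
      rw [← o1, ← o1']
      obtain ⟨f, h', f1, f2, -, -, -, -, -, f3, -⟩ := hi
      constructor
      · intro h1
        have := f3 1 h1
        rw [sub_self, sign_zero, sign_eq_zero_iff, sub_eq_zero] at this
        rw [← this]
        exact f1 1 h1
      · intro h1
        obtain ⟨s, hs1, hs2⟩ := f2 1 h1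
        have := f3 s hs1
        rw [hs2, sub_self, sign_zero] at this
        have h3 := sign_eq_zero_iff.1 this.symm
        rw [sub_eq_zero] at h3
        rw [← h3]
        exact hs1
    have e3 : b.1 = b'.1 := Bool.eq_iff_iff.2 e2
    exact Prod.ext e3 e1

/-! ### the limit -/

theorem const_eq : (2 + Real.sqrt 2) / 32 * (al / al ^ 2) + (2 + Real.sqrt 2) / 32 * (al / al ^ 3)
    = 1 / 16 := by
  have hal := al_pos
  have h1 : Real.sqrt 2 = al - 1 := by unfold al; ring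
  rw [h1]
  have h2 := al_sq
  have h3 : al ^ 3 = 5 * al + 2 := by
    calc al ^ 3 = al * al ^ 2 := by ring
      _ = al * (2 * al + 1) := by rw [h2]
      _ = 2 * al ^ 2 + al := by ring
      _ = 5 * al + 2 := by rw [h2]; ring
  have h4 : al / al ^ 2 = al - 2 := by
    rw [div_eq_iff (by positivity), h2]
    nlinarith
  have h5 : al / al ^ 3 = 5 - 2 * al := by
    rw [div_eq_iff (by positivity), h3]
    nlinarith
  rw [h4, h5]
  nlinarith

theorem exact_of (hmap : S_map) (hcode : S_code) (hnorm : S_norm) (hpar : S_par) (hone : S_one)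
    (hwei : S_wei) (hcard : S_card) (hcls : S_cls) (hread : S_read) (hcnt3 : S_cnt3)
    (hca : S_conva)
    (hcb : S_convb) (hl1 : S_lim1) (hl0 : S_lim0) (hl4 : S_lim4) (hrig : S_rig2)
    (hcano : S_cano) (hfalse : S_false) (hmem : S_mem) (hcw : S_cw) (hlow : S_low2) :
    S_exact := by
  classical
  have hal := al_pos
  obtain ⟨K, E, hKE⟩ := hone 145
  obtain ⟨K', E', hKE'⟩ := hfalse
  have hfin : ∀ n, (classes {S | S ∈ Cls 6 ∧ S.card = n}).Finite := by
    intro n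
    have h1 := classes_mono (cls_sub hnorm hpar n)
    rw [classes_union] at h1
    exact ((hKE n).1.union (q2_bound hmap hcode hcnt3 hwei hcard n).1).subset h1
  refine ⟨hfin, ?_⟩
  -- the limits of the counting functions
  obtain ⟨lW, lU, lV⟩ := hl1
  obtain ⟨lA0, lB0⟩ := hl0
  obtain ⟨lU4, lP1⟩ := hl4
  have LA := tri_limit hca hcb XU XV WS nz_XU nz_XV nz_WS _ _ _ lU lV lW
  have LB := tri_limit hca hcb XU4 XV XP1 nz_XU4 nz_XV nz_XP1 _ _ _ lU4 lV lP1
  have LC := tri_limit hca hcb WS XB0 WS nz_WS nz_XB0 nz_WS _ _ _ lW lB0 lW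
  have LD := tri_limit hca hcb XA0 WS WS nz_XA0 nz_WS nz_WS _ _ _ lA0 lW lW
  have ec : (1 : ℝ) / 2 * (1 / 2) * ((2 + Real.sqrt 2) / 4) / 2 = (2 + Real.sqrt 2) / 32 := by ring
  rw [ec] at LA LB
  have ec' : (2 + Real.sqrt 2) / 4 * 0 * ((2 + Real.sqrt 2) / 4) / 2 = 0 := by ring
  rw [ec'] at LC
  have ec'' : 0 * ((2 + Real.sqrt 2) / 4) * ((2 + Real.sqrt 2) / 4) / 2 = 0 := by ring
  rw [ec''] at LD
  have lowlim : Tendsto (fun n : ℕ => ((((tri XU4 XV XP1 (n - 1)).ncard : ℝ) +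
      ((tri XU4 XV XP1 (n - 2)).ncard : ℝ))) / ((n : ℝ) ^ 2 * al ^ n)) atTop (nhds (1 / 16)) := by
    have a1 := shift_limit _ _ 2 LB
    have a2 := shift_limit _ _ 3 LB
    have a3 := a1.add a2
    rw [const_eq] at a3
    refine a3.congr (fun n => ?_)
    rw [← add_div]
    rfl
  have uplim : Tendsto (fun n : ℕ => ((((K * (n + 1) ^ E : ℕ) : ℝ)) / ((n : ℝ) ^ 2 * al ^ n) +
      (((K' * (n + 1) ^ E' : ℕ) : ℝ)) / ((n : ℝ) ^ 2 * al ^ n)) +
      (((((tri XU XV WS (n - 1)).ncard : ℝ) +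
      ((tri XU XV WS (n - 2)).ncard : ℝ))) / ((n : ℝ) ^ 2 * al ^ n) +
      ∑ k ∈ Finset.range 7, 16 * (((tri WS XB0 WS (n + 1 - k)).ncard : ℝ) /
        ((n : ℝ) ^ 2 * al ^ n) + ((tri XA0 WS WS (n + 1 - k)).ncard : ℝ) /
        ((n : ℝ) ^ 2 * al ^ n)))) atTop (nhds (1 / 16)) := by
    have b1 := poly_limit K E
    have b2 := poly_limit K' E'
    have b3 : Tendsto (fun n : ℕ => ((((tri XU XV WS (n - 1)).ncard : ℝ) +
        ((tri XU XV WS (n - 2)).ncard : ℝ))) / ((n : ℝ) ^ 2 * al ^ n)) atTop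
        (nhds (1 / 16)) := by
      have a1 := shift_limit _ _ 2 LA
      have a2 := shift_limit _ _ 3 LA
      have a3 := a1.add a2
      rw [const_eq] at a3
      refine a3.congr (fun n => ?_)
      rw [← add_div]
      rfl
    have b4 : Tendsto (fun n : ℕ => ∑ k ∈ Finset.range 7, 16 *
        (((tri WS XB0 WS (n + 1 - k)).ncard : ℝ) /
        ((n : ℝ) ^ 2 * al ^ n) + ((tri XA0 WS WS (n + 1 - k)).ncard : ℝ) /
        ((n : ℝ) ^ 2 * al ^ n))) atTop (nhds (∑ k ∈ Finset.range 7, 16 *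
          ((0 : ℝ) * (al / al ^ k) + 0 * (al / al ^ k)))) := by
      apply tendsto_finsetSum
      intro k _
      exact ((shift_limit _ _ k LC).add (shift_limit _ _ k LD)).const_mul 16
    have b5 : (∑ k ∈ Finset.range 7, 16 * ((0 : ℝ) * (al / al ^ k) + 0 * (al / al ^ k))) = 0 := by
      simp
    rw [b5] at b4
    have b6 := (b1.add b2).add (b3.add b4)
    have b7 : (0 : ℝ) + 0 + (1 / 16 + 0) = 1 / 16 := by norm_num
    rw [b7] at b6
    exact b6
  refine tendsto_of_tendsto_of_tendsto_of_le_of_le' lowlim uplim ?_ ?_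
  · filter_upwards [eventually_ge_atTop 2] with n hn
    have h1 := lower_bound hcls hread hrig hlow hca hfin n hn
    have h2 : ((tri XU4 XV XP1 (n - 1)).ncard : ℝ) + ((tri XU4 XV XP1 (n - 2)).ncard : ℝ) ≤
        (numConf 6 n : ℝ) := by exact_mod_cast h1
    have h3 : (0 : ℝ) ≤ (n : ℝ) ^ 2 * al ^ n := by positivity
    exact div_le_div_of_nonneg_right h2 h3
  · filter_upwards [eventually_ge_atTop 6] with n hn
    have h1 : classes {S | S ∈ Cls 6 ∧ S.card = n} ⊆
        classes (Q1 n) ∪ (classes (QF n) ∪ (classes (QK n) ∪ classes (QE n))) := by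
      rw [← classes_union, ← classes_union, ← classes_union]
      apply classes_mono
      refine (cls_sub hnorm hpar n).trans ?_
      exact Set.union_subset_union_right _ (q2_sub hmap hcano n)
    obtain ⟨f1, b1⟩ := hKE n
    obtain ⟨f2, b2⟩ := hKE' n
    obtain ⟨f3, b3⟩ := qk_bound hmap hcode hwei hcard hca hcw n (by omega)
    obtain ⟨f4, b4⟩ := qe_bound hmap hcode hwei hcard hca hmem n hn
    have h2 : numConf 6 n ≤ (classes (Q1 n)).ncard + ((classes (QF n)).ncard +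
        ((classes (QK n)).ncard + (classes (QE n)).ncard)) := by
      refine (Set.ncard_le_ncard h1 (f1.union (f2.union (f3.union f4)))).trans ?_
      refine (Set.ncard_union_le _ _).trans ?_
      refine Nat.add_le_add_left ?_ _
      refine (Set.ncard_union_le _ _).trans ?_
      refine Nat.add_le_add_left ?_ _
      exact Set.ncard_union_le _ _
    have h3 : numConf 6 n ≤ (K * (n + 1) ^ E + K' * (n + 1) ^ E') +
        (((tri XU XV WS (n - 1)).ncard + (tri XU XV WS (n - 2)).ncard) +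
        ∑ k ∈ Finset.range 7, 16 * ((tri WS XB0 WS (n + 1 - k)).ncard +
        (tri XA0 WS WS (n + 1 - k)).ncard)) := by
      have b1' : (classes (Q1 n)).ncard ≤ K * (n + 1) ^ E := b1
      have b2' : (classes (QF n)).ncard ≤ K' * (n + 1) ^ E' := b2
      omega
    have h4 : (0 : ℝ) ≤ (n : ℝ) ^ 2 * al ^ n := by positivity
    have h5 : (numConf 6 n : ℝ) ≤ ((K * (n + 1) ^ E : ℕ) : ℝ) + ((K' * (n + 1) ^ E' : ℕ) : ℝ) +
        ((((tri XU XV WS (n - 1)).ncard : ℝ) + ((tri XU XV WS (n - 2)).ncard : ℝ)) +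
        ∑ k ∈ Finset.range 7, 16 * (((tri WS XB0 WS (n + 1 - k)).ncard : ℝ) +
        ((tri XA0 WS WS (n + 1 - k)).ncard : ℝ))) := by exact_mod_cast h3
    have h6 := div_le_div_of_nonneg_right h5 h4
    refine h6.trans (le_of_eq ?_)
    rw [add_div, add_div, add_div, Finset.sum_div]
    congr 2
    apply Finset.sum_congr rfl
    intro k _
    rw [mul_div_assoc, add_div]

end Pool.Agent.W902.C6
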