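import Pool.Agent.W902.C6.Stm

/-!
Project C6: the lower bound from its parts.
-/

set_option autoImplicit false

open Pool.Agent.H800R3

namespace Pool.Agent.W902.C6

/-- letter: first line only -/
abbrev la : Lt := (true, false)
/-- letter: second line only -/
abbrev lb : Lt := (false, true)

theorem mem_posns {A T : Finset ℝ} {x : ℝ} : x ∈ posns A T ↔ x ∈ A ∨ x⁻¹ ∈ T := by
  classical
  unfold posns
  rw [Finset.mem_union, Finset.mem_image]
  constructor
  · rintro (h | ⟨t, ht, rfl⟩)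
    · exact Or.inl h
    · exact Or.inr (by rwa [inv_inv])
  · rintro (h | h)
    · exact Or.inl h
    · exact Or.inr ⟨x⁻¹, h, inv_inv x⟩

theorem lett_fst {A T : Finset ℝ} {x : ℝ} : (lett A T x).1 = true ↔ x ∈ A := by
  simp [lett]

theorem lett_snd {A T : Finset ℝ} {x : ℝ} : (lett A T x).2 = true ↔ x⁻¹ ∈ T := by
  simp [lett]

/-- fixed prefixes -/
def pre1 : List Lt := [la, la, la, la, lb, lb, lb, lb]

theorem canon_of_words (hhead : S_head) {A T : Finset ℝ} (h0 : (0 : ℝ) ∉ A) (h0' : (0 : ℝ) ∉ T)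
    {u v : List Lt} (hu : word A T (Set.Iio 0) = la :: u)
    (hv : word A T (Set.Ioo 0 1) = lb :: v) : Canon A T := by
  obtain ⟨r, hr, hrp, hrl, hrm⟩ := hhead A T _ _ _ hu
  obtain ⟨q, hq, hqp, hql, hqm⟩ := hhead A T _ _ _ hv
  have hrA : r ∈ A := lett_fst.1 (by rw [hrl])
  have hqT : q⁻¹ ∈ T := lett_snd.1 (by rw [hql])
  have hr0 : r < 0 := hr
  obtain ⟨hq0, hq1⟩ := hq
  have hqi : 1 < q⁻¹ := by
    rw [← inv_one]
    exact (inv_lt_inv₀ one_pos hq0).2 hq1
  refine ⟨h0, h0', ⟨r, hrA, hr0, ?_, ?_⟩, ⟨q⁻¹, hqT, by linarith, ?_, ?_⟩⟩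
  · intro s hs
    rcases lt_or_ge s 0 with h | h
    · exact hrm s (mem_posns.2 (Or.inl hs)) h
    · linarith
  · intro t ht htn
    have h1 : t⁻¹ < 0 := inv_lt_zero.2 htn
    have h2 := hrm t⁻¹ (mem_posns.2 (Or.inr (by rwa [inv_inv]))) h1
    have h3 : t⁻¹ * t = 1 := inv_mul_cancel₀ htn.ne
    nlinarith
  · intro t ht
    rcases le_or_gt t 1 with h | h
    · linarith
    · have ht0 : 0 < t := by linarith
      have h1 : 0 < t⁻¹ := inv_pos.2 ht0
      have h2 : t⁻¹ < 1 := by
        rw [← inv_one]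
        exact (inv_lt_inv₀ ht0 one_pos).2 h
      have h3 := hqm t⁻¹ (mem_posns.2 (Or.inr (by rwa [inv_inv]))) ⟨h1, h2⟩
      have h4 := (inv_le_inv₀ h1 hq0).2 h3
      rwa [inv_inv] at h4
  · intro s hs hs0
    rcases lt_or_ge s 1 with h | h
    · have h3 := hqm s (mem_posns.2 (Or.inl hs)) ⟨hs0, h⟩
      have h4 : q * q⁻¹ = 1 := mul_inv_cancel₀ hq0.ne'
      nlinarith
    · nlinarith

theorem low (hreal : S_real) (hcls : S_cls) (hcard : S_card) (hwei : S_wei) (hrig : S_rig)
    (hread : S_read) (hlet : S_let) (hhead : S_head) : S_low := by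
  classical
  intro m
  have key : ∀ z : List Lt × List Lt × List Lt, ∃ S : Finset Pt, z ∈ Triple m →
      ∃ A T : Finset ℝ, S = std true A T ∧
      (0 : ℝ) ∉ A ∧ (0 : ℝ) ∉ T ∧ (1 : ℝ) ∉ A ∧ (1 : ℝ) ∉ T ∧
      word A T (Set.Iio 0) = pre1 ++ z.1 ∧ word A T (Set.Ioo 0 1) = lb :: z.2.1 ∧
      word A T (Set.Ioi 1) = la :: z.2.2 := by
    intro z
    by_cases hz : z ∈ Triple m
    · obtain ⟨h1, h2, h3, -⟩ := hz
      have n1 : NZ (pre1 ++ z.1) := by
        intro x hx
        rcases List.mem_append.1 hx with h | h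
        · have hp : ∀ y ∈ pre1, y ≠ (false, false) := by unfold pre1 la lb; decide
          exact hp x h
        · exact h1 x h
      have n2 : NZ (lb :: z.2.1) := by
        intro x hx
        rcases List.mem_cons.1 hx with rfl | h
        · decide
        · exact h2 x h
      have n3 : NZ (la :: z.2.2) := by
        intro x hx
        rcases List.mem_cons.1 hx with rfl | h
        · decide
        · exact h3 x h
      obtain ⟨A, T, h⟩ := hreal _ _ _ n1 n2 n3
      exact ⟨std true A T, fun _ => ⟨A, T, rfl, h⟩⟩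
    · exact ⟨∅, fun h => absurd h hz⟩
  choose G hG using key
  -- data of a member
  have data : ∀ z ∈ Triple m, ∃ A T : Finset ℝ, G z = std true A T ∧
      Canon A T ∧ (1 : ℝ) ∉ A ∧ (1 : ℝ) ∉ T ∧ 4 ≤ A.card ∧ 4 ≤ T.card ∧
      (∃ s ∈ A, 1 < s) ∧ (∃ s ∈ A, s < 1) ∧
      word A T (Set.Iio 0) = pre1 ++ z.1 ∧ word A T (Set.Ioo 0 1) = lb :: z.2.1 ∧
      word A T (Set.Ioi 1) = la :: z.2.2 := by
    intro z hz
    obtain ⟨A, T, h1, h2, h3, h4, h5, h6, h7, h8⟩ := hG z hz
    have hc : Canon A T := canon_of_words hhead h2 h3 h6 h7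
    refine ⟨A, T, h1, hc, h4, h5, ?_, ?_, ?_, ?_, h6, h7, h8⟩
    · have := (hlet A T (Set.Iio 0)).1
      rw [h6, List.countP_append] at this
      have e : pre1.countP (fun x => x.1) = 4 := by decide
      omega
    · have := (hlet A T (Set.Iio 0)).2
      rw [h6, List.countP_append] at this
      have e : pre1.countP (fun x => x.2) = 4 := by decide
      omega
    · obtain ⟨r, hr, -, hrl, -⟩ := hhead A T _ _ _ h8
      exact ⟨r, lett_fst.1 (by rw [hrl]), hr⟩
    · obtain ⟨-, -, ⟨s, hs, hs0, -⟩, -⟩ := hc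
      exact ⟨s, hs, by linarith⟩
  refine ⟨G, ?_, ?_⟩
  · intro z hz
    obtain ⟨A, T, h1, hc, h4, h5, -, -, -, -, h6, h7, h8⟩ := data z hz
    rw [h1]
    refine ⟨hcls _ _ _, ?_⟩
    have e1 := hcard true A T
    rw [if_neg (fun h => h4 h.1)] at e1
    obtain ⟨-, -, -, e2⟩ := hwei A T
    have e0 : wt (lett A T 0) = 0 := by
      have a1 : lett A T 0 = (false, false) := by
        simp [lett, hc.1, hc.2.1]
      rw [a1]; rfl
    have e3 : wt (lett A T 1) = 0 := by
      have a1 : lett A T 1 = (false, false) := by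
        simp [lett, h4, h5]
      rw [a1]; rfl
    rw [h6, h7, h8, e0, e3] at e2
    obtain ⟨-, -, -, e4⟩ := hz
    have e5 : weight (pre1 ++ z.1) = 8 + weight z.1 := by
      unfold weight
      rw [List.map_append, List.sum_append]
      rfl
    have e6 : weight (lb :: z.2.1) = 1 + weight z.2.1 := by
      unfold weight
      rw [List.map_cons, List.sum_cons]
      rfl
    have e7 : weight (la :: z.2.2) = 1 + weight z.2.2 := by
      unfold weight
      rw [List.map_cons, List.sum_cons]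
      rfl
    rw [e5, e6, e7] at e2
    have e8 : (true).toNat = 1 := rfl
    omega
  · intro z hz z' hz' hs
    obtain ⟨A, T, h1, hc, h4, h5, k1, k2, k3, k4, h6, h7, h8⟩ := data z hz
    obtain ⟨A', T', h1', hc', h4', h5', k1', k2', -, -, h6', h7', h8'⟩ := data z' hz'
    rw [h1, h1'] at hs
    have hi := hrig A T A' T' k1 k2 k1' k2' h4 h5 h4' h5' k3 k4 hs
    obtain ⟨w1, w2, w3⟩ := hread A T A' T' hc hc' hi
    rw [h6, h6'] at w1
    rw [h7, h7'] at w2
    rw [h8, h8'] at w3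
    have g1 := List.append_cancel_left w1
    have g2 := (List.cons.inj w2).2
    have g3 := (List.cons.inj w3).2
    exact Prod.ext g1 (Prod.ext g2 g3)

end Pool.Agent.W902.C6
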