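import Pool.Agent.W902.C6.Stm

/-!
Project C6, second stage: the exact asymptotics `c_6(n) ~ n ^ 2 * (1 + sqrt 2) ^ n / 16`.
Statements of the parts.
-/

set_option autoImplicit false

open Pool.Agent.H800R3 Filter

namespace Pool.Agent.W902.C6

/-- all words -/
def WS : Set (List Lt) := {l | NZ l}

/-- words whose first letter contains a point of the first line -/
def XU : Set (List Lt) := {l | NZ l ∧ ∃ x l', l = x :: l' ∧ x.1 = true}

/-- words whose first letter contains a point of the second line -/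
def XV : Set (List Lt) := {l | NZ l ∧ ∃ x l', l = x :: l' ∧ x.2 = true}

/-- words in `XU` with at least four points of each line -/
def XU4 : Set (List Lt) :=
  {l | l ∈ XU ∧ 4 ≤ l.countP (fun x => x.1) ∧ 4 ≤ l.countP (fun x => x.2)}

/-- words with a point of the first line -/
def XP1 : Set (List Lt) := {l | NZ l ∧ 1 ≤ l.countP (fun x => x.1)}

/-- words without points of the first line -/
def XA0 : Set (List Lt) := {l | NZ l ∧ ∀ x ∈ l, x.1 = false}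

/-- words without points of the second line -/
def XB0 : Set (List Lt) := {l | NZ l ∧ ∀ x ∈ l, x.2 = false}

/-- number of words of weight `i` in `X` -/
noncomputable def cntX (X : Set (List Lt)) (i : ℕ) : ℕ := {l | l ∈ X ∧ weight l = i}.ncard

/-- triples of words in `X`, `Y`, `Z` of total weight `m` -/
def tri (X Y Z : Set (List Lt)) (m : ℕ) : Set (List Lt × List Lt × List Lt) :=
  {z | z.1 ∈ X ∧ z.2.1 ∈ Y ∧ z.2.2 ∈ Z ∧ weight z.1 + weight z.2.1 + weight z.2.2 = m}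

/-- CONVA: triples are counted by a convolution -/
def S_conva : Prop := ∀ X Y Z : Set (List Lt), (∀ l ∈ X, NZ l) → (∀ l ∈ Y, NZ l) →
  (∀ l ∈ Z, NZ l) → ∀ m : ℕ, (tri X Y Z m).Finite ∧
  (tri X Y Z m).ncard = ∑ p ∈ Finset.HasAntidiagonal.antidiagonal m,
    cntX X p.1 * ∑ q ∈ Finset.HasAntidiagonal.antidiagonal p.2, cntX Y q.1 * cntX Z q.2

/-- CONVB: limits of threefold convolutions -/
def S_convb : Prop := ∀ (x y z : ℕ → ℝ) (a b c : ℝ), Tendsto x atTop (nhds a) →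
  Tendsto y atTop (nhds b) → Tendsto z atTop (nhds c) →
  Tendsto (fun m : ℕ => (∑ p ∈ Finset.HasAntidiagonal.antidiagonal m,
    x p.1 * ∑ q ∈ Finset.HasAntidiagonal.antidiagonal p.2, y q.1 * z q.2) / (m : ℝ) ^ 2) atTop
    (nhds (a * b * c / 2))

/-- LIM1 -/
def S_lim1 : Prop :=
  Tendsto (fun i : ℕ => (cntX WS i : ℝ) / al ^ i) atTop (nhds ((2 + Real.sqrt 2) / 4)) ∧
  Tendsto (fun i : ℕ => (cntX XU i : ℝ) / al ^ i) atTop (nhds (1 / 2)) ∧
  Tendsto (fun i : ℕ => (cntX XV i : ℝ) / al ^ i) atTop (nhds (1 / 2))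

/-- LIM0 -/
def S_lim0 : Prop :=
  Tendsto (fun i : ℕ => (cntX XA0 i : ℝ) / al ^ i) atTop (nhds 0) ∧
  Tendsto (fun i : ℕ => (cntX XB0 i : ℝ) / al ^ i) atTop (nhds 0)

/-- FEW: few words have at most three points of the first (second) line -/
def S_few : Prop :=
  Tendsto (fun i : ℕ => (({l : List Lt | NZ l ∧ l.countP (fun x => x.1) < 4 ∧
    weight l = i}.ncard : ℕ) : ℝ) / al ^ i) atTop (nhds 0) ∧
  Tendsto (fun i : ℕ => (({l : List Lt | NZ l ∧ l.countP (fun x => x.2) < 4 ∧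
    weight l = i}.ncard : ℕ) : ℝ) / al ^ i) atTop (nhds 0)

/-- LIM4 -/
def S_lim4 : Prop :=
  Tendsto (fun i : ℕ => (cntX XU4 i : ℝ) / al ^ i) atTop (nhds (1 / 2)) ∧
  Tendsto (fun i : ℕ => (cntX XP1 i : ℝ) / al ^ i) atTop (nhds ((2 + Real.sqrt 2) / 4))

/-- RIG2: rigidity, the common point of the two lines is allowed -/
def S_rig2 : Prop := ∀ A T A' T' : Finset ℝ,
  4 ≤ A.card → 4 ≤ T.card → 4 ≤ A'.card → 4 ≤ T'.card →
  ((1 : ℝ) ∈ A ↔ (1 : ℝ) ∈ T) → ((1 : ℝ) ∈ A' ↔ (1 : ℝ) ∈ T') →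
  (∃ s ∈ A, 1 < s) → (∃ s ∈ A, s < 1) →
  SameConf (std true A T) (std true A' T') → Iso2 A T A' T'

/-- REAL2: all triples of words are realised, with or without the common point -/
def S_real2 : Prop := ∀ (o : Bool) (u v w : List Lt), NZ u → NZ v → NZ w →
  ∃ A T : Finset ℝ, (0 : ℝ) ∉ A ∧ (0 : ℝ) ∉ T ∧ ((1 : ℝ) ∈ A ↔ o = true) ∧
  ((1 : ℝ) ∈ T ↔ o = true) ∧
  word A T (Set.Iio 0) = u ∧ word A T (Set.Ioo 0 1) = v ∧ word A T (Set.Ioi 1) = w

/-- CANO: canonical representatives -/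
def S_cano : Prop := ∀ A T : Finset ℝ, ((1 : ℝ) ∈ A ↔ (1 : ℝ) ∈ T) → (∃ t ∈ T, 1 < t) →
  (∃ s ∈ A, s < 0) → ∃ A' T' : Finset ℝ, Canon A' T' ∧ ((1 : ℝ) ∈ A' ↔ (1 : ℝ) ∈ T') ∧
  (∃ t ∈ T', 1 < t) ∧ Iso2 A T A' T'

/-- FALSE: polynomially many configurations on two lines -/
def S_false : Prop := ∃ K E : ℕ, ∀ n : ℕ,
  (classes {S : Finset Pt | S.card = n ∧ ∃ A T : Finset ℝ, SameConf S (std false A T)}).Finite ∧
  (classes {S : Finset Pt | S.card = n ∧ ∃ A T : Finset ℝ,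
    SameConf S (std false A T)}).ncard ≤ K * (n + 1) ^ E

/-- MEM: letters of a word -/
def S_mem : Prop := ∀ (A T : Finset ℝ) (I : Set ℝ) (x : Lt), x ∈ word A T I →
  ∃ r ∈ I, r ∈ posns A T ∧ lett A T r = x

/-- the words of a canonical pair -/
def S_cw : Prop := ∀ A T : Finset ℝ, Canon A T → (∃ t ∈ T, 1 < t) →
  word A T (Set.Iio 0) ∈ XU ∧ word A T (Set.Ioo 0 1) ∈ XV ∧ word A T (Set.Ioi 1) ∈ WS

/-- LOW2 -/
def S_low2 : Prop := ∀ (o : Bool) (m : ℕ), ∃ G : List Lt × List Lt × List Lt → Finset ℝ × Finset ℝ,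
  ∀ z ∈ tri XU4 XV XP1 m, Canon (G z).1 (G z).2 ∧ ((1 : ℝ) ∈ (G z).1 ↔ o = true) ∧
    ((1 : ℝ) ∈ (G z).2 ↔ o = true) ∧ 4 ≤ (G z).1.card ∧ 4 ≤ (G z).2.card ∧
    (∃ s ∈ (G z).1, 1 < s) ∧ (∃ s ∈ (G z).1, s < 1) ∧
    (std true (G z).1 (G z).2).card = m + 1 + o.toNat ∧
    word (G z).1 (G z).2 (Set.Iio 0) = z.1 ∧ word (G z).1 (G z).2 (Set.Ioo 0 1) = z.2.1 ∧
    word (G z).1 (G z).2 (Set.Ioi 1) = z.2.2

/-- the final statement: exact asymptotics -/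
def S_exact : Prop := (∀ n, (classes {S | S ∈ Cls 6 ∧ S.card = n}).Finite) ∧
  Tendsto (fun n : ℕ => (numConf 6 n : ℝ) / ((n : ℝ) ^ 2 * (1 + Real.sqrt 2) ^ n)) atTop
    (nhds (1 / 16))

end Pool.Agent.W902.C6
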