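import Pool.Agent.W902.C6.Low
import Pool.Agent.W902.C6.Up
import Pool.Agent.W924.C6.MAP
import Pool.Agent.W917.C6.Code
import Pool.Agent.W179.C6.Norm
import Pool.Agent.W724.C6.Par
import Pool.Agent.W351.C6.One
import Pool.Agent.W589.C6.Cnt
import Pool.Agent.W402.C6.Cnt3
import Pool.Agent.W409.C6.Wei
import Pool.Agent.W597.C6.Card
import Pool.Agent.W999.C6.CLS
import Pool.Agent.W358.C6.Real
import Pool.Agent.W348.C6.Rig
import Pool.Agent.W382.C6.Read
import Pool.Agent.W919.C6.Let

set_option autoImplicit false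

namespace Pool.Agent.W902.C6

theorem theta : S_main :=
  main_of Pool.Agent.W924.C6.MAP.main Pool.Agent.W917.C6.Code.main Pool.Agent.W179.C6.Norm.main
    Pool.Agent.W724.C6.Par.main Pool.Agent.W351.C6.One.main
    (Pool.Agent.W402.C6.Cnt3.main Pool.Agent.W589.C6.Cnt.main) Pool.Agent.W409.C6.Wei.main
    Pool.Agent.W597.C6.Card.main
    (low Pool.Agent.W358.C6.Real.main Pool.Agent.W999.C6.CLS.main Pool.Agent.W597.C6.Card.main
      Pool.Agent.W409.C6.Wei.main Pool.Agent.W348.C6.Rig.main Pool.Agent.W382.C6.Read.main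
      Pool.Agent.W919.C6.Let.letm Pool.Agent.W919.C6.Let.headm)

end Pool.Agent.W902.C6
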